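import Pool.Agent.helper28.LT.Defs

set_option autoImplicit false

/-!
# LT module RE: twisted residues
-/

namespace Pool.Agent.helper28.LT

open Finset NumberField Pool.Agent.helper3.FT Pool.Agent.helper47.RA

/-- RE1 -/
theorem exists_resQ (n k q : ℤ) (_hn : n ≠ 0) (_hk : k ≠ 0) (h : IsCoprime n k)
    (hq : IsCoprime q n) : ∃ α β γ : ℤ, ResQ n k q α β γ := by
  obtain ⟨x, y, hxy⟩ : IsCoprime (n ^ 5) k := h.pow_left
  obtain ⟨x', y', hxy'⟩ : IsCoprime (k ^ 3) (n ^ 3) := h.symm.pow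
  obtain ⟨x'', y'', hxy''⟩ : IsCoprime (q * k ^ 5) (n ^ 3) :=
    IsCoprime.mul_left hq.pow_right h.symm.pow
  refine ⟨q * x * n ^ 3, -(x' * k), x'' * k * n ^ 2, ?_, ?_, ?_, ?_, ?_, ?_⟩
  · exact Dvd.intro_left _ rfl
  · exact ⟨y', by linear_combination (-1 : ℤ) * hxy'⟩
  · exact ⟨-(n ^ 2 * y''), by linear_combination n ^ 2 * hxy''⟩
  · exact ⟨-(q * y), by linear_combination q * hxy⟩
  · exact ⟨-x', by ring⟩
  · exact ⟨x'' * n ^ 2, by ring⟩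

/-- RE2 -/
theorem ResQ.dvd_iff {n k q α β γ : ℤ} (hr : ResQ n k q α β γ) (h : IsCoprime n k)
    (hq : IsCoprime q n) (m g z : ℤ) :
    n ^ 3 * k ∣ z - (α * m ^ 2 + β * m * g + γ * g ^ 2) ↔
      (n ^ 3 ∣ q * z * k ^ 4 + q * m * g * k ^ 2 - g ^ 2 * n ^ 2 ∧ k ∣ q * m ^ 2 - z * n ^ 2) := by
  obtain ⟨a, ha⟩ := hr.hα
  obtain ⟨b, hb⟩ := hr.hβ
  obtain ⟨c, hc⟩ := hr.hγ
  obtain ⟨a', ha'⟩ := hr.kα
  obtain ⟨b', hb'⟩ := hr.kβ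
  obtain ⟨c', hc'⟩ := hr.kγ
  constructor
  · rintro ⟨w, hw⟩
    constructor
    · refine ⟨q * k ^ 5 * w + q * a * m ^ 2 * k ^ 4 + q * b * k ^ 2 * m * g + c * g ^ 2, ?_⟩
      linear_combination q * k ^ 4 * hw + q * m ^ 2 * k ^ 4 * ha + q * k ^ 2 * m * g * hb
        + g ^ 2 * hc
    · refine ⟨-(n ^ 5 * w) - a' * m ^ 2 - b' * n ^ 2 * m * g - c' * n ^ 2 * g ^ 2, ?_⟩
      linear_combination -(n ^ 2) * hw - m ^ 2 * ha' - n ^ 2 * m * g * hb' - n ^ 2 * g ^ 2 * hc'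
  · rintro ⟨⟨r, hr1⟩, ⟨s, hs⟩⟩
    have hcop : IsCoprime (n ^ 3) k := h.pow_left
    refine hcop.mul_dvd ?_ ?_
    · have h4 : IsCoprime (n ^ 3) (q * k ^ 4) :=
        IsCoprime.mul_right hq.symm.pow_left h.pow
      refine h4.dvd_of_dvd_mul_left
        ⟨r - q * a * m ^ 2 * k ^ 4 - q * b * k ^ 2 * m * g - c * g ^ 2, ?_⟩
      linear_combination hr1 - q * m ^ 2 * k ^ 4 * ha - q * k ^ 2 * m * g * hb - g ^ 2 * hc
    · have h4 : IsCoprime k (n ^ 2) := h.symm.pow_right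
      refine h4.dvd_of_dvd_mul_left
        ⟨-s - a' * m ^ 2 - b' * n ^ 2 * m * g - c' * n ^ 2 * g ^ 2, ?_⟩
      linear_combination -hs - m ^ 2 * ha' - n ^ 2 * m * g * hb' - n ^ 2 * g ^ 2 * hc'

end Pool.Agent.helper28.LT
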