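import Pool.Agent.helper28.LT.Defs
import Pool.Agent.helper88.FT.DualMap

set_option autoImplicit false

/-!
# LT module DM: the twisted dual map
-/

namespace Pool.Agent.helper28.LT

open Finset NumberField Pool.Agent.helper3.FT Pool.Agent.helper47.RA

/-- DM (twisted dual map) -/
theorem dual_mapQ (K M' M q L n k h : ℕ) (hn : K < 2 * n) (hnK : n ≤ K) (hk : K < 2 * k)
    (hkK : k ≤ K) (hcop : Nat.Coprime n k) (hq : 1 ≤ q) (hM' : 1 ≤ M') (hqM : q * M' ≤ M)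
    (hMq : M ≤ 2 * q * M') (hL : K ^ 3 ≤ L * M) (hh : 1 ≤ h) (hhL : 32 * h * M ≤ q * L * K ^ 3)
    (α β γ : ℤ) (hr : ResQ n k q α β γ) (u v : ℤ) (hu : |u| ≤ 4 * M') (hv : |v| ≤ 4 * M)
    (h1 : nd (2 * (h * α / ((n : ℝ) ^ 3 * k)) * u + h * β / ((n : ℝ) ^ 3 * k) * v) ≤ 1 / M')
    (h2 : nd (h * β / ((n : ℝ) ^ 3 * k) * u + 2 * (h * γ / ((n : ℝ) ^ 3 * k)) * v) ≤ 1 / M) :
    ∃ A A' B X : ℤ, |A| ≤ 34 * q * L ∧ |A'| ≤ 34 * q * L ∧ |B| ≤ 34 * q * L ∧ |X| ≤ L ∧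
      5 * h * v = F1 A A' B n k ∧ 5 * h * (q * u) = F2 A' B (q * X) n k := by
  have hn1 : 1 ≤ n := by omega
  have hk1 : 1 ≤ k := by omega
  have hM1 : 1 ≤ M := by
    have : 1 * 1 ≤ q * M' := Nat.mul_le_mul hq hM'
    omega
  have hn0 : (0 : ℝ) < n := by exact_mod_cast hn1
  have hk0 : (0 : ℝ) < k := by exact_mod_cast hk1
  have hq0 : (0 : ℤ) < (n : ℤ) ^ 3 * k := by positivity
  obtain ⟨r1, hr1⟩ := nd_le_int M' hM' (h * (2 * α * u + β * v)) ((n : ℤ) ^ 3 * k) hq0 _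
    (by push_cast; field_simp) h1
  obtain ⟨r2, hr2⟩ := nd_le_int M hM1 (h * (β * u + 2 * γ * v)) ((n : ℤ) ^ 3 * k) hq0 _
    (by push_cast; field_simp) h2
  obtain ⟨a, ha⟩ := hr.hα
  obtain ⟨b, hb⟩ := hr.hβ
  obtain ⟨c, hc⟩ := hr.hγ
  obtain ⟨a', ha'⟩ := hr.kα
  obtain ⟨b', hb'⟩ := hr.kβ
  obtain ⟨c', hc'⟩ := hr.kγ
  have hcopZ : IsCoprime (n : ℤ) (k : ℤ) := Nat.isCoprime_iff_coprime.mpr hcop
  set ξ : ℤ := h * (2 * α * u + β * v) - (n : ℤ) ^ 3 * k * r1 with hξ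
  set Ξ : ℤ := h * (β * u + 2 * γ * v) - (n : ℤ) ^ 3 * k * r2 with hΞ
  -- A
  obtain ⟨A, hA⟩ : (n : ℤ) ^ 3 ∣ h * v + k ^ 2 * ξ := by
    refine ⟨2 * h * a * u * k ^ 2 + h * v * b - k ^ 3 * r1, ?_⟩
    have e1 : (h : ℤ) * v + k ^ 2 * ξ = h * v * (β * k ^ 2 + 1) + 2 * h * α * u * k ^ 2
        - (n : ℤ) ^ 3 * k * k ^ 2 * r1 := by rw [hξ]; ring
    rw [e1, hb, ha]; ring
  -- X
  obtain ⟨X, hX⟩ : (k : ℤ) ∣ Ξ := by
    refine ⟨h * (b' * u + 2 * c' * v) - (n : ℤ) ^ 3 * r2, ?_⟩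
    rw [hΞ, hb', hc']; ring
  have hcop3 : IsCoprime ((n : ℤ) ^ 3) ((k : ℤ) ^ 2) := hcopZ.pow
  obtain ⟨A', hA'⟩ : (n : ℤ) ^ 3 ∣ h * (q * u) + 2 * n ^ 2 * ξ + q * k ^ 3 * X := by
    refine hcop3.dvd_of_dvd_mul_left
      (z := (h * (q * u) + 2 * n ^ 2 * ξ + q * k ^ 3 * X : ℤ)) ?_
    refine ⟨2 * n ^ 2 * A + q * h * u * b * k ^ 2 + 2 * h * v * c - q * k ^ 5 * r2, ?_⟩
    have e1 : (k : ℤ) ^ 2 * (h * (q * u) + 2 * n ^ 2 * ξ + q * k ^ 3 * X) =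
        2 * n ^ 2 * (h * v + k ^ 2 * ξ) - 2 * n ^ 2 * h * v + k ^ 2 * h * (q * u)
          + q * k ^ 4 * (k * X) := by
      ring
    rw [e1, hA, ← hX, hΞ]
    have e2 : (q : ℤ) * (k : ℤ) ^ 4 * (h * (β * u + 2 * γ * v) - (n : ℤ) ^ 3 * k * r2) =
        q * h * u * k ^ 2 * (β * k ^ 2 + 1) - q * h * u * k ^ 2
          + 2 * h * v * (q * γ * k ^ 4 - n ^ 2)
          + 2 * h * v * n ^ 2 - q * (n : ℤ) ^ 3 * k ^ 5 * r2 := by ring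
    rw [e2, hb, hc]; ring
  obtain ⟨B, hB⟩ : (k : ℤ) ∣ 2 * n * A' - 5 * ξ := by
    have hcop2 : IsCoprime (k : ℤ) ((n : ℤ) ^ 2) := hcopZ.symm.pow_right
    refine hcop2.dvd_of_dvd_mul_left ?_
    have e1 : (n : ℤ) ^ 2 * (2 * n * A' - 5 * ξ) = 2 * (n ^ 3 * A') - 5 * n ^ 2 * ξ := by ring
    rw [e1, ← hA']
    have e2 : 2 * ((h : ℤ) * (q * u) + 2 * n ^ 2 * ξ + q * k ^ 3 * X) - 5 * n ^ 2 * ξ =
        2 * h * (q * u) - n ^ 2 * ξ + k * (2 * q * k ^ 2 * X) := by ring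
    rw [e2]
    refine dvd_add ?_ (Dvd.intro _ rfl)
    refine ⟨-(2 * h * u * a' + h * n ^ 2 * b' * v - n ^ 5 * r1), ?_⟩
    have e3 : 2 * (h : ℤ) * (q * u) - n ^ 2 * ξ = -(2 * h * u * (α * n ^ 2 - q))
        - h * n ^ 2 * β * v + n ^ 5 * k * r1 := by rw [hξ]; ring
    rw [e3, ha', hb']; ring
  -- sizes
  have hnp : (0 : ℤ) < n := by exact_mod_cast hn1
  have hkp : (0 : ℤ) < k := by exact_mod_cast hk1
  have hqp : (0 : ℤ) < q := by exact_mod_cast hq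
  have hMp : (0 : ℤ) < M := by exact_mod_cast hM1
  have hM'p : (0 : ℤ) < M' := by exact_mod_cast hM'
  have hhp : (0 : ℤ) < h := by exact_mod_cast hh
  have hL0 : (0 : ℤ) ≤ L := Int.natCast_nonneg L
  zify at hn hnK hk hkK hqM hMq hL hhL
  have hKp : (0 : ℤ) < K := by linarith
  have hn3 : (0 : ℤ) < (n : ℤ) ^ 3 := by positivity
  have hqL : (0 : ℤ) ≤ (q : ℤ) * L := mul_nonneg hqp.le hL0
  have hK3n : (K : ℤ) ^ 3 ≤ 8 * n ^ 3 := by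
    calc (K : ℤ) ^ 3 ≤ (2 * n) ^ 3 := pow_le_pow_left₀ hKp.le hn.le 3
      _ = 8 * n ^ 3 := by ring
  have hn3K : (n : ℤ) ^ 3 ≤ K ^ 3 := pow_le_pow_left₀ hnp.le hnK 3
  have hk3K : (k : ℤ) ^ 3 ≤ K ^ 3 := pow_le_pow_left₀ hkp.le hkK 3
  have hn2K : (n : ℤ) ^ 2 ≤ K ^ 2 := pow_le_pow_left₀ hnp.le hnK 2
  have hn2k : (n : ℤ) ^ 2 * k ≤ K ^ 3 := by
    calc (n : ℤ) ^ 2 * k ≤ K ^ 2 * K := mul_le_mul hn2K hkK hkp.le (by positivity)
      _ = K ^ 3 := by ring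
  have hLM : (K : ℤ) ^ 3 ≤ (2 * q * L) * M' := by
    calc (K : ℤ) ^ 3 ≤ L * M := hL
      _ ≤ L * (2 * q * M') := mul_le_mul_of_nonneg_left hMq hL0
      _ = _ := by ring
  have h4M : 4 * (h : ℤ) * M ≤ q * L * n ^ 3 := by
    have t1 : (q : ℤ) * L * K ^ 3 ≤ q * L * (8 * n ^ 3) := mul_le_mul_of_nonneg_left hK3n hqL
    linarith
  -- |X|
  have hXM : (M : ℤ) * |X| ≤ n ^ 3 := by
    rw [hX, abs_mul, abs_of_pos hkp] at hr2
    have : (k : ℤ) * (M * |X|) ≤ k * n ^ 3 := by linarith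
    exact le_of_mul_le_mul_left this hkp
  have hXb : |X| ≤ L := by
    have : (M : ℤ) * |X| ≤ M * L := by
      calc (M : ℤ) * |X| ≤ n ^ 3 := hXM
        _ ≤ K ^ 3 := hn3K
        _ ≤ L * M := hL
        _ = M * L := by ring
    exact le_of_mul_le_mul_left this hMp
  -- |ξ|
  have hξb : |ξ| ≤ 2 * q * L * k := by
    have : (M' : ℤ) * |ξ| ≤ M' * (2 * q * L * k) := by
      calc (M' : ℤ) * |ξ| ≤ n ^ 3 * k := hr1
        _ ≤ ((2 * q * L) * M') * k := mul_le_mul_of_nonneg_right (hn3K.trans hLM) hkp.le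
        _ = _ := by ring
    exact le_of_mul_le_mul_left this hM'p
  -- |A|
  have hAb : |A| ≤ 3 * (q * L) := by
    have e1 : |A| * n ^ 3 ≤ 4 * h * M + k ^ 2 * |ξ| := by
      have : |(n : ℤ) ^ 3 * A| ≤ h * |v| + k ^ 2 * |ξ| := by
        rw [← hA]
        refine (abs_add_le _ _).trans (le_of_eq ?_)
        rw [abs_mul, abs_mul, abs_of_pos hhp, abs_of_nonneg (by positivity : (0:ℤ) ≤ (k:ℤ) ^ 2)]
      rw [abs_mul, abs_of_pos hn3] at this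
      nlinarith [mul_le_mul_of_nonneg_left hv hhp.le]
    have e2 : (M' : ℤ) * (k ^ 2 * |ξ|) ≤ M' * (2 * (q * L) * n ^ 3) := by
      calc (M' : ℤ) * (k ^ 2 * |ξ|) = k ^ 2 * (M' * |ξ|) := by ring
        _ ≤ (k : ℤ) ^ 2 * (n ^ 3 * k) := mul_le_mul_of_nonneg_left hr1 (by positivity)
        _ = (n : ℤ) ^ 3 * k ^ 3 := by ring
        _ ≤ (n : ℤ) ^ 3 * ((2 * q * L) * M') :=
            mul_le_mul_of_nonneg_left (hk3K.trans hLM) hn3.le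
        _ = _ := by ring
    have e3 := le_of_mul_le_mul_left e2 hM'p
    have e4 : |A| * (n : ℤ) ^ 3 ≤ (3 * (q * L)) * n ^ 3 := by linarith
    exact le_of_mul_le_mul_right e4 hn3
  -- |A'|
  have hA'b : |A'| ≤ 6 * (q * L) := by
    have e1 : (n : ℤ) ^ 3 * |A'| ≤ h * (q * |u|) + 2 * n ^ 2 * |ξ| + q * k ^ 3 * |X| := by
      have : |(n : ℤ) ^ 3 * A'| ≤ h * (q * |u|) + 2 * n ^ 2 * |ξ| + q * k ^ 3 * |X| := by
        rw [← hA']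
        refine (abs_add_three _ _ _).trans (le_of_eq ?_)
        rw [abs_mul (h : ℤ), abs_mul (q : ℤ), abs_mul (2 * (n : ℤ) ^ 2),
          abs_mul ((q : ℤ) * (k : ℤ) ^ 3), abs_of_pos hhp, abs_of_pos hqp,
          abs_of_nonneg (by positivity : (0:ℤ) ≤ (q : ℤ) * (k:ℤ) ^ 3),
          abs_of_nonneg (by positivity : (0:ℤ) ≤ 2 * (n:ℤ) ^ 2)]
      rwa [abs_mul, abs_of_pos hn3] at this
    have e2 : (h : ℤ) * (q * |u|) ≤ q * L * n ^ 3 := by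
      calc (h : ℤ) * (q * |u|) ≤ h * (q * (4 * M')) :=
            mul_le_mul_of_nonneg_left (mul_le_mul_of_nonneg_left hu hqp.le) hhp.le
        _ = 4 * h * (q * M') := by ring
        _ ≤ 4 * h * M := mul_le_mul_of_nonneg_left hqM (by positivity)
        _ ≤ _ := h4M
    have e3 : 2 * (n : ℤ) ^ 2 * |ξ| ≤ 4 * (q * L) * n ^ 3 := by
      have : (M' : ℤ) * (2 * (n : ℤ) ^ 2 * |ξ|) ≤ M' * (4 * (q * L) * n ^ 3) := by
        calc (M' : ℤ) * (2 * (n : ℤ) ^ 2 * |ξ|) = 2 * n ^ 2 * (M' * |ξ|) := by ring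
          _ ≤ 2 * (n : ℤ) ^ 2 * (n ^ 3 * k) := mul_le_mul_of_nonneg_left hr1 (by positivity)
          _ = 2 * (n : ℤ) ^ 3 * (n ^ 2 * k) := by ring
          _ ≤ 2 * (n : ℤ) ^ 3 * ((2 * q * L) * M') :=
              mul_le_mul_of_nonneg_left (hn2k.trans hLM) (by positivity)
          _ = _ := by ring
      exact le_of_mul_le_mul_left this hM'p
    have e4 : (q : ℤ) * k ^ 3 * |X| ≤ q * L * n ^ 3 := by
      have : (M : ℤ) * ((q : ℤ) * k ^ 3 * |X|) ≤ M * (q * L * n ^ 3) := by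
        calc (M : ℤ) * ((q : ℤ) * k ^ 3 * |X|) = q * k ^ 3 * (M * |X|) := by ring
          _ ≤ (q : ℤ) * k ^ 3 * n ^ 3 := mul_le_mul_of_nonneg_left hXM (by positivity)
          _ = (q : ℤ) * n ^ 3 * k ^ 3 := by ring
          _ ≤ (q : ℤ) * n ^ 3 * (L * M) :=
              mul_le_mul_of_nonneg_left (hk3K.trans hL) (by positivity)
          _ = _ := by ring
      exact le_of_mul_le_mul_left this hMp
    have e5 : (n : ℤ) ^ 3 * |A'| ≤ n ^ 3 * (6 * (q * L)) := by linarith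
    exact le_of_mul_le_mul_left e5 hn3
  -- |B|
  have hBb : |B| ≤ 34 * (q * L) := by
    have e1 : (k : ℤ) * |B| ≤ 2 * n * |A'| + 5 * |ξ| := by
      have : |(k : ℤ) * B| ≤ 2 * n * |A'| + 5 * |ξ| := by
        rw [← hB]
        refine (abs_sub _ _).trans (le_of_eq ?_)
        rw [abs_mul (2 * (n : ℤ)), abs_mul (5 : ℤ),
          abs_of_nonneg (by positivity : (0:ℤ) ≤ 2 * (n:ℤ))]
        simp
      rwa [abs_mul, abs_of_pos hkp] at this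
    have e2 : 2 * (n : ℤ) ≤ 4 * k := by linarith
    have e3 : 2 * (n : ℤ) * |A'| ≤ 4 * k * (6 * (q * L)) :=
      mul_le_mul e2 hA'b (abs_nonneg _) (by positivity)
    have e4 : (k : ℤ) * |B| ≤ k * (34 * (q * L)) := by linarith
    exact le_of_mul_le_mul_left e4 hkp
  refine ⟨A, A', B, X, by linarith, by linarith, by linarith, hXb, ?_, ?_⟩
  · unfold F1
    have t1 : (h : ℤ) * v = n ^ 3 * A - k ^ 2 * ξ := by linarith
    have t2 : 5 * ξ = 2 * n * A' - k * B := by linarith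
    calc 5 * (h : ℤ) * v = 5 * (h * v) := by ring
      _ = 5 * (n ^ 3 * A) - k ^ 2 * (5 * ξ) := by rw [t1]; ring
      _ = _ := by rw [t2]; ring
  · unfold F2
    have t1 : (h : ℤ) * (q * u) = n ^ 3 * A' - 2 * n ^ 2 * ξ - q * k ^ 3 * X := by linarith
    have t2 : 5 * ξ = 2 * n * A' - k * B := by linarith
    calc 5 * (h : ℤ) * (q * u) = 5 * (h * (q * u)) := by ring
      _ = 5 * (n ^ 3 * A') - 2 * n ^ 2 * (5 * ξ) - 5 * (q * k ^ 3 * X) := by rw [t1]; ring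
      _ = _ := by rw [t2]; ring

end Pool.Agent.helper28.LT
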